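import Mathlib

/-!
# MP_cfac74_al : sets of natural numbers as bits of one big number (fast in the kernel)
-/

set_option autoImplicit false

namespace Pool.Agent.Lib.MP_cfac74_al.Dec

/-- the union of the translates of the bit set `B` by the members of a list -/
def orShift (B : ℕ) : List ℕ → ℕ
  | [] => 0
  | y :: l => Nat.lor (orShift B l) (Nat.shiftLeft B y)

theorem testBit_orShift (B : ℕ) (l : List ℕ) (i : ℕ) :
    (orShift B l).testBit i = true ↔ ∃ y ∈ l, y ≤ i ∧ B.testBit (i - y) = true := by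
  induction l with
  | nil => simp [orShift]
  | cons y l ih =>
    have h : (orShift B (y :: l)).testBit i =
        ((orShift B l).testBit i || (B <<< y).testBit i) := Nat.testBit_or _ _ _
    rw [h, Bool.or_eq_true, ih, Nat.testBit_shiftLeft, Bool.and_eq_true, decide_eq_true_iff]
    constructor
    · rintro (⟨z, hz, h1, h2⟩ | ⟨h1, h2⟩)
      · exact ⟨z, List.mem_cons_of_mem _ hz, h1, h2⟩
      · exact ⟨y, List.mem_cons_self, h1, h2⟩
    · rintro ⟨z, hz, h1, h2⟩
      rcases List.mem_cons.1 hz with rfl | hz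
      · exact Or.inr ⟨h1, h2⟩
      · exact Or.inl ⟨z, hz, h1, h2⟩

/-- the bit set of a list -/
def bitsOf (l : List ℕ) : ℕ := orShift 1 l

theorem testBit_bitsOf (l : List ℕ) (i : ℕ) : (bitsOf l).testBit i = true ↔ i ∈ l := by
  unfold bitsOf
  rw [testBit_orShift]
  constructor
  · rintro ⟨y, hy, h1, h2⟩
    rw [Nat.testBit_one_eq_true_iff_self_eq_zero] at h2
    have : i = y := by omega
    rw [this]; exact hy
  · intro h
    exact ⟨i, h, le_rfl, by rw [Nat.sub_self]; rfl⟩

/-- all translates: `orAll f n = union of f i <<< g i, i < n` -/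
def orAll (f g : ℕ → ℕ) : ℕ → ℕ
  | 0 => 0
  | n + 1 => Nat.lor (orAll f g n) (Nat.shiftLeft (f n) (g n))

theorem testBit_orAll (f g : ℕ → ℕ) (n i : ℕ) :
    (orAll f g n).testBit i = true ↔ ∃ j < n, g j ≤ i ∧ (f j).testBit (i - g j) = true := by
  induction n with
  | zero => simp [orAll]
  | succ n ih =>
    have h : (orAll f g (n + 1)).testBit i =
        ((orAll f g n).testBit i || (f n <<< g n).testBit i) := Nat.testBit_or _ _ _
    rw [h, Bool.or_eq_true, ih, Nat.testBit_shiftLeft, Bool.and_eq_true, decide_eq_true_iff]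
    constructor
    · rintro (⟨j, hj, h1, h2⟩ | ⟨h1, h2⟩)
      · exact ⟨j, by omega, h1, h2⟩
      · exact ⟨n, by omega, h1, h2⟩
    · rintro ⟨j, hj, h1, h2⟩
      rcases Nat.lt_succ_iff_lt_or_eq.1 hj with hj | rfl
      · exact Or.inl ⟨j, hj, h1, h2⟩
      · exact Or.inr ⟨h1, h2⟩

/-- window check: all bits of `mask` are present in `X` after position `lo` -/
def window (X mask lo : ℕ) : Bool := Nat.beq (Nat.land (Nat.shiftRight X lo) mask) mask

theorem testBit_of_window {X mask lo : ℕ} (h : window X mask lo = true) {i : ℕ}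
    (hi : mask.testBit i = true) : X.testBit (lo + i) = true := by
  have h1 : (X >>> lo) &&& mask = mask := Nat.eq_of_beq_eq_true h
  have h2 : ((X >>> lo) &&& mask).testBit i = true := by rw [h1]; exact hi
  rw [Nat.testBit_and, Bool.and_eq_true, Nat.testBit_shiftRight] at h2
  exact h2.1

theorem testBit_full (n i : ℕ) (h : i < n) : (2 ^ n - 1).testBit i = true := by
  rw [Nat.testBit_two_pow_sub_one]; simpa using h

/-- full window -/
theorem mem_of_window_full {X lo n : ℕ} (h : window X (2 ^ n - 1) lo = true) {i : ℕ}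
    (h1 : lo ≤ i) (h2 : i < lo + n) : X.testBit i = true := by
  obtain ⟨j, rfl⟩ : ∃ j, i = lo + j := ⟨i - lo, by omega⟩
  exact testBit_of_window h (testBit_full n j (by omega))

/-- repunit in base `2^k`: the multiples of `k` below `k n` -/
def rep (k n : ℕ) : ℕ := (2 ^ (k * n) - 1) / (2 ^ k - 1)

theorem rep_eq_sum (k n : ℕ) (hk : 1 ≤ k) : rep k n = ∑ j ∈ Finset.range n, 2 ^ (k * j) := by
  have h := Nat.geomSum_eq (m := 2 ^ k) (by
    calc 2 = 2 ^ 1 := rfl
      _ ≤ 2 ^ k := Nat.pow_le_pow_right (by norm_num) hk) n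
  rw [rep, pow_mul, ← h]
  exact Finset.sum_congr rfl fun j _ => by rw [pow_mul]

theorem testBit_rep (k n i : ℕ) (hk : 1 ≤ k) :
    (rep k n).testBit i = true ↔ k ∣ i ∧ i < k * n := by
  have hrep : rep k n = Finset.equivBitIndices.symm ((Finset.range n).image (fun j => k * j)) := by
    rw [rep_eq_sum k n hk, Finset.equivBitIndices_symm_apply, Finset.sum_image]
    intro a _ b _ hab
    exact Nat.eq_of_mul_eq_mul_left (by omega) hab
  have h2 : (rep k n).testBit i = true ↔ i ∈ (Finset.range n).image (fun j => k * j) := by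
    rw [← Nat.mem_bitIndices]
    rw [hrep]
    have := Finset.toFinset_bitIndices_sum_two_pow ((Finset.range n).image (fun j => k * j))
    rw [Finset.equivBitIndices_symm_apply]
    conv_rhs => rw [← this]
    rw [List.mem_toFinset]
  rw [h2, Finset.mem_image]
  constructor
  · rintro ⟨j, hj, rfl⟩
    rw [Finset.mem_range] at hj
    exact ⟨dvd_mul_right _ _, Nat.mul_lt_mul_of_pos_left hj (by omega)⟩
  · rintro ⟨⟨j, rfl⟩, hlt⟩
    exact ⟨j, Finset.mem_range.2 (Nat.lt_of_mul_lt_mul_left hlt), rfl⟩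

end Pool.Agent.Lib.MP_cfac74_al.Dec
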