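import Pool.Agent.Lib.MP_cfac74_al.Dec.Main

/-!
# MP_cfac74_al : direct products, Frobenius groups `C_m : C_r`, reduction to primes
-/

set_option autoImplicit false

namespace Pool.Agent.Lib.MP_cfac74_al.Dec

open Finset

/-! ### direct products -/

theorem card_conj_prod (G H : Type) [Group G] [Group H] [Finite G] [Finite H] :
    Nat.card (ConjClasses (G × H)) = Nat.card (ConjClasses G) * Nat.card (ConjClasses H) := by
  have KG := card_comm_eq_card_conjClasses_mul_card G
  have KH := card_comm_eq_card_conjClasses_mul_card H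
  have K := card_comm_eq_card_conjClasses_mul_card (G × H)
  have E : {p : (G × H) × (G × H) // Commute p.1 p.2} ≃
      {p : G × G // Commute p.1 p.2} × {p : H × H // Commute p.1 p.2} :=
    { toFun := fun p => (⟨(p.1.1.1, p.1.2.1), congrArg Prod.fst p.2.eq⟩,
        ⟨(p.1.1.2, p.1.2.2), congrArg Prod.snd p.2.eq⟩)
      invFun := fun p => ⟨((p.1.1.1, p.2.1.1), (p.1.1.2, p.2.1.2)),
        Prod.ext p.1.2.eq p.2.2.eq⟩
      left_inv := fun _ => rfl
      right_inv := fun _ => rfl }
  rw [Nat.card_congr E, Nat.card_prod, KG, KH, Nat.card_prod] at K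
  have hG : 0 < Nat.card G := Nat.card_pos
  have hH : 0 < Nat.card H := Nat.card_pos
  apply Nat.eq_of_mul_eq_mul_right (Nat.mul_pos hG hH)
  rw [← K]; ring

theorem card_conj_comm (H : Type) [CommGroup H] [Finite H] :
    Nat.card (ConjClasses H) = Nat.card H := by
  have K := card_comm_eq_card_conjClasses_mul_card H
  have E : {p : H × H // Commute p.1 p.2} ≃ H × H :=
    Equiv.subtypeUnivEquiv fun p => mul_comm p.1 p.2
  rw [Nat.card_congr E, Nat.card_prod] at K
  exact (Nat.eq_of_mul_eq_mul_right Nat.card_pos K).symm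

theorem Good_mul {d n : ℕ} (hd : Good d) (hn : Odd n) : Good (n * d) := by
  obtain ⟨G, _, _, h1, ⟨a, b, hab⟩, h3⟩ := hd
  have hn0 : NeZero n := ⟨hn.pos.ne'⟩
  refine ⟨Multiplicative (ZMod n) × G, inferInstance, inferInstance, ?_, ?_, ?_⟩
  · rw [Nat.card_prod]
    refine Odd.mul ?_ h1
    have : Nat.card (Multiplicative (ZMod n)) = n := Nat.card_zmod n
    rw [this]; exact hn
  · exact ⟨(1, a), (1, b), fun h => hab (congrArg Prod.snd h)⟩
  · rw [card_conj_prod, card_conj_comm, h3]
    congr 1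
    exact Nat.card_zmod n

/-- every odd `t > 3` reduces to primes -/
theorem Good_of_primes (N : ℕ) (h : ∀ p, p.Prime → 5 ≤ p → p < N → Good p) (h9 : Good 9) :
    ∀ t, Odd t → 3 < t → t < N → Good t := by
  intro t ht h3 hN
  by_cases hp : ∃ p, p.Prime ∧ 5 ≤ p ∧ p ∣ t
  · obtain ⟨p, hp, h5, ⟨c, hc⟩⟩ := hp
    have hc0 : 0 < c := by
      rcases Nat.eq_zero_or_pos c with h0 | h0
      · rw [h0] at hc; omega
      · exact h0
    have hple : p ≤ t := by
      rw [hc]; exact Nat.le_mul_of_pos_right p hc0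
    have hcodd : Odd c := by
      rw [hc] at ht
      exact (Nat.odd_mul.1 ht).2
    have := Good_mul (h p hp h5 (by omega)) hcodd
    rw [hc, mul_comm]; exact this
  · -- `t` is a power of three
    push Not at hp
    have h30 : ∀ q, q.Prime → q ∣ t → q = 3 := by
      intro q hq hqt
      by_contra hne
      have h2 := hq.two_le
      rcases Nat.lt_or_ge q 5 with h5 | h5
      · have : q = 2 ∨ q = 4 := by omega
        rcases this with rfl | rfl
        · exact (Nat.not_even_iff_odd.2 ht) (even_iff_two_dvd.2 hqt)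
        · revert hq; decide
      · exact hp q hq h5 hqt
    obtain ⟨k, hk⟩ : ∃ k, t = 3 ^ k :=
      ⟨_, Nat.eq_prime_pow_of_unique_prime_dvd (by omega) fun {q} hq hqt => h30 q hq hqt⟩
    have hk2 : 2 ≤ k := by
      by_contra hlt
      have : k = 0 ∨ k = 1 := by omega
      rcases this with rfl | rfl <;> norm_num at hk <;> omega
    obtain ⟨l, rfl⟩ : ∃ l, k = l + 2 := ⟨k - 2, by omega⟩
    rw [hk, pow_add]
    exact Good_mul h9 (Odd.pow (by decide))

/-! ### Frobenius groups `C_m : C_r` -/

/-- carrier -/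
structure FG (m r : ℕ) where
  a : ZMod m
  i : ZMod r

theorem FG.ext' {m r : ℕ} {g h : FG m r} (ha : g.a = h.a) (hi : g.i = h.i) : g = h := by
  cases g; cases h; simp_all

theorem pow_val_add {m r : ℕ} [NeZero r] (x : ZMod m) (hx : x ^ r = 1) (i j : ZMod r) :
    x ^ (i + j).val = x ^ i.val * x ^ j.val := by
  rw [ZMod.val_add, ← pow_add]
  conv_rhs => rw [← Nat.mod_add_div (i.val + j.val) r]
  rw [pow_add, pow_mul, hx, one_pow, mul_one]

/-- the group structure -/
@[reducible] def fgGroup (m r : ℕ) [NeZero r] (x : ZMod m) (hx : x ^ r = 1) : Group (FG m r) :=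
  letI mu : Mul (FG m r) := ⟨fun g h => ⟨g.a + x ^ g.i.val * h.a, g.i + h.i⟩⟩
  letI o : One (FG m r) := ⟨⟨0, 0⟩⟩
  letI iv : Inv (FG m r) := ⟨fun g => ⟨-(x ^ (-g.i).val * g.a), -g.i⟩⟩
  Group.ofLeftAxioms
    (fun g h k => by
      apply FG.ext'
      · change g.a + x ^ g.i.val * h.a + x ^ (g.i + h.i).val * k.a =
          g.a + x ^ g.i.val * (h.a + x ^ h.i.val * k.a)
        rw [pow_val_add x hx]; ring
      · exact add_assoc _ _ _)
    (fun g => by
      apply FG.ext'
      · change 0 + x ^ (0 : ZMod r).val * g.a = g.a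
        rw [ZMod.val_zero, pow_zero, one_mul, zero_add]
      · exact zero_add _)
    (fun g => by
      apply FG.ext'
      · change -(x ^ (-g.i).val * g.a) + x ^ (-g.i).val * g.a = 0
        rw [neg_add_cancel]
      · exact neg_add_cancel _)

theorem frob_unit {m r : ℕ} (hr : r.Prime) (x : ZMod m) (hx : x ^ r = 1)
    (hu : IsUnit (x - 1)) (i : ZMod r) (hi : i ≠ 0) : IsUnit (x ^ i.val - 1) := by
  have : Fact r.Prime := ⟨hr⟩
  have h1 : x = (x ^ i.val) ^ (i⁻¹).val := by
    rw [← pow_mul]
    have h2 : (i.val * (i⁻¹).val) % r = 1 := by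
      have h3 : i * i⁻¹ = 1 := mul_inv_cancel₀ hi
      have h4 := congrArg ZMod.val h3
      rw [ZMod.val_mul, ZMod.val_one] at h4
      exact h4
    conv_rhs => rw [← Nat.mod_add_div (i.val * (i⁻¹).val) r, h2]
    rw [pow_add, pow_mul, hx, one_pow, mul_one, pow_one]
  have h2 : x ^ i.val - 1 ∣ x - 1 := by
    conv_rhs => rw [h1]
    exact sub_one_dvd_pow_sub_one _ _
  exact isUnit_of_dvd_unit h2 hu
  where
  sub_one_dvd_pow_sub_one {R : Type} [CommRing R] (y : R) (n : ℕ) : y - 1 ∣ y ^ n - 1 := by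
    have := sub_dvd_pow_sub_pow y 1 n
    rwa [one_pow] at this

/-- the class number of the Frobenius group -/
theorem Good_frob' (m r : ℕ) (hr : r.Prime) (hr2 : r ≠ 2) (hm : Odd m) (hm1 : 1 < m) (x : ZMod m)
    (hx : x ^ r = 1) (hu : IsUnit (x - 1)) (t : ℕ) (ht : r * t = m + (r ^ 2 - 1)) : Good t := by
  classical
  have : Fact r.Prime := ⟨hr⟩
  have : NeZero r := ⟨hr.ne_zero⟩
  have : NeZero m := ⟨by omega⟩
  have hrodd : Odd r := hr.odd_of_ne_two hr2
  let _ := fgGroup m r x hx
  have hmul : ∀ g h : FG m r, g * h = ⟨g.a + x ^ g.i.val * h.a, g.i + h.i⟩ := fun _ _ => rfl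
  let e : FG m r ≃ ZMod m × ZMod r :=
    { toFun := fun g => (g.a, g.i)
      invFun := fun p => ⟨p.1, p.2⟩
      left_inv := fun _ => rfl
      right_inv := fun _ => rfl }
  have hfin : Finite (FG m r) := Finite.of_equiv _ e.symm
  have hcard : Nat.card (FG m r) = m * r := by
    rw [Nat.card_congr e, Nat.card_prod, Nat.card_zmod, Nat.card_zmod]
  have hc : ∀ g h : FG m r, Commute g h ↔ (x ^ h.i.val - 1) * g.a = (x ^ g.i.val - 1) * h.a := by
    intro g h
    constructor
    · intro c
      have c' : g * h = h * g := c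
      rw [hmul, hmul] at c'
      injection c' with c1 c2
      linear_combination -c1
    · intro c
      change g * h = h * g
      rw [hmul, hmul]
      apply FG.ext'
      · change g.a + x ^ g.i.val * h.a = h.a + x ^ h.i.val * g.a
        linear_combination -c
      · exact add_comm _ _
  -- count
  have hcount : Nat.card {p : FG m r × FG m r // Commute p.1 p.2} = m * (m + (r ^ 2 - 1)) := by
    have E : {p : FG m r × FG m r // Commute p.1 p.2} ≃
        Σ q : ZMod r × ZMod r, {c : ZMod m × ZMod m //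
          (x ^ q.2.val - 1) * c.1 = (x ^ q.1.val - 1) * c.2} :=
      { toFun := fun p => ⟨(p.1.1.i, p.1.2.i), ⟨(p.1.1.a, p.1.2.a), (hc _ _).1 p.2⟩⟩
        invFun := fun s => ⟨(⟨s.2.1.1, s.1.1⟩, ⟨s.2.1.2, s.1.2⟩), (hc _ _).2 s.2.2⟩
        left_inv := fun _ => rfl
        right_inv := fun _ => rfl }
    rw [Nat.card_congr E, Nat.card_sigma]
    have h1 : ∀ q : ZMod r × ZMod r, Nat.card {c : ZMod m × ZMod m //
          (x ^ q.2.val - 1) * c.1 = (x ^ q.1.val - 1) * c.2} =
          m + (if q = 0 then m * (m - 1) else 0) := by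
      rintro ⟨i, j⟩
      by_cases hi : i = 0
      · by_cases hj : j = 0
        · subst hi; subst hj
          rw [if_pos (show ((0 : ZMod r), (0 : ZMod r)) = 0 from rfl)]
          have E2 : {c : ZMod m × ZMod m //
            (x ^ ((0 : ZMod r), (0 : ZMod r)).2.val - 1) * c.1 =
              (x ^ ((0 : ZMod r), (0 : ZMod r)).1.val - 1) * c.2} ≃ ZMod m × ZMod m :=
            Equiv.subtypeUnivEquiv fun c => by simp
          rw [Nat.card_congr E2, Nat.card_prod, Nat.card_zmod]
          obtain ⟨n, rfl⟩ : ∃ n, m = n + 1 := ⟨m - 1, by omega⟩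
          rw [Nat.add_sub_cancel]; ring
        · subst hi
          rw [if_neg (fun h => hj (congrArg Prod.snd h)), add_zero]
          have hju := frob_unit hr x hx hu j hj
          have E2 : {c : ZMod m × ZMod m //
            (x ^ ((0 : ZMod r), j).2.val - 1) * c.1 =
              (x ^ ((0 : ZMod r), j).1.val - 1) * c.2} ≃ ZMod m :=
            { toFun := fun c => c.1.2
              invFun := fun a => ⟨(0, a), by simp⟩
              left_inv := fun c => by
                have h2 := c.2
                simp only [ZMod.val_zero, pow_zero, sub_self, zero_mul] at h2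
                have h3 : c.1.1 = 0 := (hju.mul_right_eq_zero).1 h2
                exact Subtype.ext (Prod.ext h3.symm rfl)
              right_inv := fun _ => rfl }
          rw [Nat.card_congr E2, Nat.card_zmod]
      · rw [if_neg (fun h => hi (congrArg Prod.fst h)), add_zero]
        obtain ⟨w, hw⟩ := frob_unit hr x hx hu i hi
        have E2 : {c : ZMod m × ZMod m //
            (x ^ (i, j).2.val - 1) * c.1 = (x ^ (i, j).1.val - 1) * c.2} ≃ ZMod m :=
          { toFun := fun c => c.1.1
            invFun := fun a => ⟨(a, ↑w⁻¹ * ((x ^ j.val - 1) * a)), by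
              change (x ^ j.val - 1) * a = (x ^ i.val - 1) * (↑w⁻¹ * ((x ^ j.val - 1) * a))
              rw [← hw, Units.mul_inv_cancel_left]⟩
            left_inv := fun c => by
              apply Subtype.ext
              refine Prod.ext rfl ?_
              change ↑w⁻¹ * ((x ^ j.val - 1) * c.1.1) = c.1.2
              have h2 : (x ^ j.val - 1) * c.1.1 = (x ^ i.val - 1) * c.1.2 := c.2
              rw [h2]
              have h3 : ∀ z : ZMod m, ↑w⁻¹ * ((x ^ i.val - 1) * z) = z := fun z => by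
                rw [← hw, Units.inv_mul_cancel_left]
              exact h3 _
            right_inv := fun _ => rfl }
        rw [Nat.card_congr E2, Nat.card_zmod]
    rw [Finset.sum_congr rfl fun q _ => h1 q, Finset.sum_add_distrib, Finset.sum_const,
      Finset.sum_ite_eq' Finset.univ (0 : ZMod r × ZMod r) (fun _ => m * (m - 1)),
      if_pos (Finset.mem_univ _), Finset.card_univ, Fintype.card_prod, ZMod.card, smul_eq_mul]
    have h2 : 1 ≤ r ^ 2 := Nat.one_le_pow _ _ hr.pos
    obtain ⟨n, hn⟩ : ∃ n, m = n + 1 := ⟨m - 1, by omega⟩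
    obtain ⟨s, hs⟩ : ∃ s, r ^ 2 = s + 1 := ⟨r ^ 2 - 1, by omega⟩
    rw [← pow_two, hs, hn, Nat.add_sub_cancel, Nat.add_sub_cancel]; ring
  refine ⟨FG m r, inferInstance, hfin, ?_, ?_, ?_⟩
  · rw [hcard]; exact hm.mul hrodd
  · refine ⟨⟨1, 0⟩, ⟨0, 1⟩, fun h => ?_⟩
    rw [hmul, hmul] at h
    injection h with h1 h2
    have h3 : (1 : ZMod r).val = 1 := ZMod.val_one r
    rw [h3, pow_one, mul_zero, add_zero, zero_add, mul_one] at h1
    rw [← h1, sub_self] at hu
    have h4 : Nontrivial (ZMod m) := ZMod.nontrivial_iff.2 (by omega)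
    exact not_isUnit_zero hu
  · have K := card_comm_eq_card_conjClasses_mul_card (FG m r)
    rw [hcount, hcard, ← ht] at K
    apply Nat.eq_of_mul_eq_mul_right (Nat.mul_pos (by omega : 0 < m) hr.pos)
    rw [← K]; ring

/-- certificate form: `m = r (t-r) + 1`, `x^r = 1` and `x-1` invertible mod `m` -/
theorem Good_frob (r t x : ℕ) (hr : r.Prime) (hr2 : r ≠ 2) (ht : Odd t) (hrt : r < t)
    (hx : x ^ r % (r * (t - r) + 1) = 1) (hx1 : 1 ≤ x)
    (hg : Nat.gcd (x - 1) (r * (t - r) + 1) = 1) : Good t := by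
  have hrodd : Odd r := hr.odd_of_ne_two hr2
  set m := r * (t - r) + 1 with hm
  have h0 : 0 < r * (t - r) := Nat.mul_pos hr.pos (by omega)
  have hmodd : Odd m := by
    have : Even (t - r) := Nat.Odd.sub_odd ht hrodd
    exact (this.mul_left r).add_one
  have h1 : ((x : ZMod m)) ^ r = 1 := by
    have : ((x ^ r : ℕ) : ZMod m) = ((1 : ℕ) : ZMod m) := by
      rw [ZMod.natCast_eq_natCast_iff]
      change x ^ r % m = 1 % m
      rw [hx, Nat.mod_eq_of_lt (by omega)]
    push_cast at this
    exact this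
  have h2 : IsUnit ((x : ZMod m) - 1) := by
    have : ((x - 1 : ℕ) : ZMod m) = (x : ZMod m) - 1 := by
      rw [Nat.cast_sub hx1, Nat.cast_one]
    rw [← this, ZMod.isUnit_iff_coprime]
    exact hg
  refine Good_frob' m r hr hr2 hmodd (by omega) (x : ZMod m) h1 h2 t ?_
  obtain ⟨s, rfl⟩ : ∃ s, t = r + s := ⟨t - r, by omega⟩
  have h3 : 1 ≤ r ^ 2 := Nat.one_le_pow _ _ hr.pos
  rw [hm, Nat.add_sub_cancel_left]
  obtain ⟨q, hq⟩ : ∃ q, r ^ 2 = q + 1 := ⟨r ^ 2 - 1, by omega⟩
  rw [hq, Nat.add_sub_cancel]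
  calc r * (r + s) = r ^ 2 + r * s := by ring
    _ = r * s + 1 + q := by rw [hq]; ring

theorem Good_nine : Good 9 := Good_frob 3 9 7 (by norm_num) (by norm_num) (by decide) (by norm_num)
  (by norm_num) (by norm_num) (by norm_num)

end Pool.Agent.Lib.MP_cfac74_al.Dec
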