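import Pool.Agent.Lib.MP_cfac74_al.Dec.Mod

/-!
# MP_cfac74_al : class numbers of decorated class-two groups

`G = (⊕_j M_j) ⋊ P`, `P = V × W` with `(v,w)(v',w') = (v+v', w+w'+b(v,v'))`, `v` acts on `M_j`
through `f_j : V → Z/3`.
-/

set_option autoImplicit false

namespace Pool.Agent.Lib.MP_cfac74_al.Dec

open Finset

section
variable {M : Type} [AddCommGroup M]

theorem Tw3.s_zero (τ : Tw3 M) (p : ZMod 3) : τ.s p 0 = 0 := by
  have := τ.add p 0 0
  rw [add_zero] at this
  simpa using this

theorem Tw3.neg (τ : Tw3 M) (p : ZMod 3) (a : M) : τ.s p (-a) = - τ.s p a := by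
  have := τ.add p a (-a)
  rw [add_neg_cancel, τ.s_zero] at this
  exact (neg_eq_of_add_eq_zero_right this.symm).symm

theorem Tw3.sub (τ : Tw3 M) (p : ZMod 3) (a b : M) : τ.s p (a - b) = τ.s p a - τ.s p b := by
  rw [sub_eq_add_neg, τ.add, τ.neg, ← sub_eq_add_neg]

theorem Tw3.fix_iff (τ : Tw3 M) {p : ZMod 3} (hp : p ≠ 0) (a : M) :
    τ.s p a = a ↔ τ.s 1 a = a := by
  have hall : ∀ p : ZMod 3, p = 0 ∨ p = 1 ∨ p = 2 := by decide
  rcases hall p with rfl | rfl | rfl
  · exact absurd rfl hp
  · rfl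
  · have h21 : (2 : ZMod 3) = 1 + 1 := rfl
    have h12 : (1 : ZMod 3) = 2 + 2 := rfl
    constructor
    · intro h
      rw [h12, τ.mul, h, h]
    · intro h
      rw [h21, τ.mul, h, h]

/-- number of commuting pairs in one module -/
theorem Tw3.count [Finite M] (τ : Tw3 M) (p q : ZMod 3) :
    Nat.card {c : M × M // c.1 + τ.s p c.2 = c.2 + τ.s q c.1} =
      Nat.card M * (if p = 0 ∧ q = 0 then Nat.card M else Nat.card τ.Fix) := by
  by_cases h : p = 0 ∧ q = 0
  · rw [if_pos h]
    obtain ⟨rfl, rfl⟩ := h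
    rw [← Nat.card_prod]
    apply Nat.card_congr
    refine (Equiv.subtypeUnivEquiv fun c => ?_)
    rw [τ.zero, τ.zero, add_comm]
  rw [if_neg h]
  by_cases hp : p = 0
  · have hq : q ≠ 0 := fun hq => h ⟨hp, hq⟩
    subst hp
    have E : {c : M × M // c.1 + τ.s 0 c.2 = c.2 + τ.s q c.1} ≃ M × τ.Fix :=
      { toFun := fun c => (c.1.2, ⟨c.1.1, by
          have h1 := c.2
          rw [τ.zero, add_comm] at h1
          exact (τ.fix_iff hq _).1 (add_left_cancel h1).symm⟩)
        invFun := fun s => ⟨(s.2.1, s.1), by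
          change s.2.1 + τ.s 0 s.1 = s.1 + τ.s q s.2.1
          rw [τ.zero, (τ.fix_iff hq _).2 s.2.2, add_comm]⟩
        left_inv := fun _ => rfl
        right_inv := fun _ => rfl }
    rw [Nat.card_congr E, Nat.card_prod]
  · -- a particular solution for every `a`
    have hsol : ∀ a : M, ∃ b : M, b - τ.s p b = a - τ.s q a := by
      intro a
      have hall : ∀ p q : ZMod 3, p ≠ 0 → q = 0 ∨ q = p ∨ q = p + p := by decide
      rcases hall p q hp with rfl | rfl | rfl
      · exact ⟨0, by rw [τ.zero, τ.s_zero, sub_self, sub_self]⟩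
      · exact ⟨a, rfl⟩
      · refine ⟨a + τ.s p a, ?_⟩
        rw [τ.add, τ.mul]; abel
    choose g hg using hsol
    have E : {c : M × M // c.1 + τ.s p c.2 = c.2 + τ.s q c.1} ≃ M × τ.Fix :=
      { toFun := fun c => (c.1.1, ⟨c.1.2 - g c.1.1, by
          rw [← τ.fix_iff hp, τ.sub]
          have h1 := c.2
          have h2 := hg c.1.1
          have h3 : c.1.2 - τ.s p c.1.2 = c.1.1 - τ.s q c.1.1 := by
            rw [sub_eq_sub_iff_add_eq_add, ← h1]
          rw [← h2] at h3
          have h4 : τ.s p c.1.2 = c.1.2 - (g c.1.1 - τ.s p (g c.1.1)) := by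
            rw [← h3]; abel
          rw [h4]; abel⟩)
        invFun := fun s => ⟨(s.1, s.2.1 + g s.1), by
          change s.1 + τ.s p (s.2.1 + g s.1) = s.2.1 + g s.1 + τ.s q s.1
          rw [τ.add, (τ.fix_iff hp _).2 s.2.2]
          have h2 := hg s.1
          have h3 : τ.s p (g s.1) = g s.1 - (s.1 - τ.s q s.1) := by rw [← h2]; abel
          rw [h3]; abel⟩
        left_inv := fun c => by
          apply Subtype.ext
          refine Prod.ext rfl ?_
          change c.1.2 - g c.1.1 + g c.1.1 = c.1.2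
          abel
        right_inv := fun s => by
          refine Prod.ext rfl ?_
          apply Subtype.ext
          change s.2.1 + g s.1 - g s.1 = s.2.1
          abel }
    rw [Nat.card_congr E, Nat.card_prod]

end

/-- carrier of the group -/
structure DG (J : Type) (M : J → Type) (V W : Type) where
  a : ∀ j, M j
  v : V
  w : W

section
variable {J : Type} {M : J → Type} [∀ j, AddCommGroup (M j)] {V W : Type} [AddCommGroup V]
  [AddCommGroup W]

omit [∀ j, AddCommGroup (M j)] [AddCommGroup V] [AddCommGroup W] in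
theorem DG.ext' {g h : DG J M V W} (ha : g.a = h.a) (hv : g.v = h.v) (hw : g.w = h.w) :
    g = h := by
  cases g; cases h; simp_all

/-- the group structure -/
@[reducible] def dgGroup (τ : ∀ j, Tw3 (M j)) (f : J → V →+ ZMod 3) (b : V → V → W)
    (hx : ∀ x x' y, b (x + x') y = b x y + b x' y)
    (hy : ∀ x y y', b x (y + y') = b x y + b x y') : Group (DG J M V W) :=
  letI m : Mul (DG J M V W) := ⟨fun g h => ⟨fun j => g.a j + (τ j).s (f j g.v) (h.a j),
    g.v + h.v, g.w + h.w + b g.v h.v⟩⟩
  letI o : One (DG J M V W) := ⟨⟨fun _ => 0, 0, 0⟩⟩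
  letI i : Inv (DG J M V W) := ⟨fun g => ⟨fun j => -(τ j).s (-f j g.v) (g.a j), -g.v,
    -g.w + b g.v g.v⟩⟩
  have b0 : ∀ y, b 0 y = 0 := fun y => by
    have := hx 0 0 y
    rw [add_zero] at this
    simpa using this
  have bn : ∀ x y, b (-x) y = - b x y := fun x y => by
    have := hx x (-x) y
    rw [add_neg_cancel, b0] at this
    exact (neg_eq_of_add_eq_zero_right this.symm).symm
  Group.ofLeftAxioms
    (fun g h k => by
      apply DG.ext'
      · funext j
        change g.a j + (τ j).s (f j g.v) (h.a j) + (τ j).s (f j (g.v + h.v)) (k.a j) =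
          g.a j + (τ j).s (f j g.v) (h.a j + (τ j).s (f j h.v) (k.a j))
        rw [(τ j).add, ← (τ j).mul, map_add, add_assoc]
      · exact add_assoc _ _ _
      · change g.w + h.w + b g.v h.v + k.w + b (g.v + h.v) k.v =
          g.w + (h.w + k.w + b h.v k.v) + b g.v (h.v + k.v)
        rw [hx, hy]; abel)
    (fun g => by
      apply DG.ext'
      · funext j
        change 0 + (τ j).s (f j 0) (g.a j) = g.a j
        rw [map_zero, (τ j).zero, zero_add]
      · exact zero_add _
      · change 0 + g.w + b 0 g.v = g.w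
        rw [b0, zero_add, add_zero])
    (fun g => by
      apply DG.ext'
      · funext j
        change -(τ j).s (-f j g.v) (g.a j) + (τ j).s (f j (-g.v)) (g.a j) = 0
        rw [map_neg, neg_add_cancel]
      · exact neg_add_cancel _
      · change -g.w + b g.v g.v + g.w + b (-g.v) g.v = 0
        rw [bn]; abel)

/-- the carrier as a product -/
def dgEquiv (J : Type) (M : J → Type) (V W : Type) : DG J M V W ≃ (∀ j, M j) × V × W where
  toFun g := (g.a, g.v, g.w)
  invFun t := ⟨t.1, t.2.1, t.2.2⟩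
  left_inv _ := rfl
  right_inv _ := rfl

instance [Finite J] [∀ j, Finite (M j)] [Finite V] [Finite W] : Finite (DG J M V W) :=
  Finite.of_equiv _ (dgEquiv J M V W).symm

omit [∀ j, AddCommGroup (M j)] [AddCommGroup V] [AddCommGroup W] in
theorem card_DG [Fintype J] : Nat.card (DG J M V W) =
    (∏ j, Nat.card (M j)) * (Nat.card V * Nat.card W) := by
  rw [Nat.card_congr (dgEquiv J M V W), Nat.card_prod, Nat.card_prod, Nat.card_pi]

open Classical in
/-- Commuting pairs of the decorated group. -/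
theorem commCount [Fintype J] [∀ j, Finite (M j)] [Fintype V] [Finite W]
    (τ : ∀ j, Tw3 (M j)) (f : J → V →+ ZMod 3) (b : V → V → W)
    (hx : ∀ x x' y, b (x + x') y = b x y + b x' y)
    (hy : ∀ x y y', b x (y + y') = b x y + b x y') :
    letI := dgGroup τ f b hx hy
    Nat.card {p : DG J M V W × DG J M V W // Commute p.1 p.2} =
      (Nat.card W * Nat.card W) * ∑ q : V × V,
        if b q.1 q.2 = b q.2 q.1 then
          ∏ j, (Nat.card (M j) * (if f j q.1 = 0 ∧ f j q.2 = 0 then Nat.card (M j)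
            else Nat.card (τ j).Fix))
        else 0 := by
  let _ := dgGroup τ f b hx hy
  have hc : ∀ g h : DG J M V W, Commute g h ↔
      ((∀ j, g.a j + (τ j).s (f j g.v) (h.a j) = h.a j + (τ j).s (f j h.v) (g.a j)) ∧
        b g.v h.v = b h.v g.v) := by
    intro g h
    have hm : ∀ g h : DG J M V W, g * h = ⟨fun j => g.a j + (τ j).s (f j g.v) (h.a j),
      g.v + h.v, g.w + h.w + b g.v h.v⟩ := fun _ _ => rfl
    constructor
    · intro e
      have e' : g * h = h * g := e
      rw [hm, hm] at e'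
      injection e' with e1 e2 e3
      refine ⟨fun j => congrFun e1 j, ?_⟩
      rw [add_comm h.w g.w] at e3
      exact add_left_cancel e3
    · rintro ⟨e1, e4⟩
      change g * h = h * g
      rw [hm, hm]
      apply DG.ext'
      · funext j; exact e1 j
      · exact add_comm _ _
      · change g.w + h.w + b g.v h.v = h.w + g.w + b h.v g.v
        rw [e4, add_comm g.w h.w]
  have E : {p : DG J M V W × DG J M V W // Commute p.1 p.2} ≃
      (W × W) × (Σ q : {q : V × V // b q.1 q.2 = b q.2 q.1},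
        ∀ j, {c : M j × M j // c.1 + (τ j).s (f j q.1.1) c.2 = c.2 + (τ j).s (f j q.1.2) c.1}) :=
    { toFun := fun p => ((p.1.1.w, p.1.2.w), ⟨⟨(p.1.1.v, p.1.2.v), ((hc _ _).1 p.2).2⟩,
        fun j => ⟨(p.1.1.a j, p.1.2.a j), ((hc _ _).1 p.2).1 j⟩⟩)
      invFun := fun s => ⟨(⟨fun j => (s.2.2 j).1.1, s.2.1.1.1, s.1.1⟩,
        ⟨fun j => (s.2.2 j).1.2, s.2.1.1.2, s.1.2⟩), (hc _ _).2 ⟨fun j => (s.2.2 j).2, s.2.1.2⟩⟩
      left_inv := fun _ => rfl
      right_inv := fun _ => rfl }
  rw [Nat.card_congr E, Nat.card_prod, Nat.card_prod, Nat.card_sigma]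
  congr 1
  rw [← Finset.sum_filter, ← Finset.sum_subtype_eq_sum_filter]
  have e1 : (Finset.subtype (fun q : V × V => b q.1 q.2 = b q.2 q.1) Finset.univ) =
      Finset.univ := by ext; simp
  rw [e1]
  refine Finset.sum_congr rfl fun q _ => ?_
  rw [Nat.card_pi]
  exact Finset.prod_congr rfl fun j _ => (τ j).count _ _

open Classical in
/-- **Class number of the decorated group.** -/
theorem class_number [Fintype J] [∀ j, Finite (M j)] [Fintype V] [Finite W]
    (τ : ∀ j, Tw3 (M j)) (f : J → V →+ ZMod 3) (b : V → V → W)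
    (hx : ∀ x x' y, b (x + x') y = b x y + b x' y)
    (hy : ∀ x y y', b x (y + y') = b x y + b x y') :
    letI := dgGroup τ f b hx hy
    Nat.card V * Nat.card (ConjClasses (DG J M V W)) =
      Nat.card W * ∑ q : V × V,
        if b q.1 q.2 = b q.2 q.1 then
          ∏ j, (if f j q.1 = 0 ∧ f j q.2 = 0 then Nat.card (M j) else Nat.card (τ j).Fix)
        else 0 := by
  let _ := dgGroup τ f b hx hy
  have K := card_comm_eq_card_conjClasses_mul_card (DG J M V W)
  rw [commCount τ f b hx hy, card_DG] at K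
  have h1 : ∑ q : V × V, (if b q.1 q.2 = b q.2 q.1 then
          ∏ j, (Nat.card (M j) * (if f j q.1 = 0 ∧ f j q.2 = 0 then Nat.card (M j)
            else Nat.card (τ j).Fix))
        else 0) = (∏ j, Nat.card (M j)) * ∑ q : V × V,
        if b q.1 q.2 = b q.2 q.1 then
          ∏ j, (if f j q.1 = 0 ∧ f j q.2 = 0 then Nat.card (M j) else Nat.card (τ j).Fix)
        else 0 := by
    rw [Finset.mul_sum]
    refine Finset.sum_congr rfl fun q _ => ?_
    split_ifs
    · rw [Finset.prod_mul_distrib]
    · rw [mul_zero]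
  rw [h1] at K
  have hW : 0 < Nat.card W := Nat.card_pos
  have hM : 0 < ∏ j, Nat.card (M j) := Finset.prod_pos fun j _ => Nat.card_pos
  apply Nat.eq_of_mul_eq_mul_left (Nat.mul_pos hW hM)
  calc _ = Nat.card (ConjClasses (DG J M V W)) *
        ((∏ j, Nat.card (M j)) * (Nat.card V * Nat.card W)) := by ring
    _ = _ := K.symm
    _ = _ := by ring

end

end Pool.Agent.Lib.MP_cfac74_al.Dec
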