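import Pool.Agent.Lib.MP_cfac74_al.Dec.Grp

/-!
# MP_cfac74_al : existence theorems for decorated groups
-/

set_option autoImplicit false

namespace Pool.Agent.Lib.MP_cfac74_al.Dec

open Finset

/-- `t` is the class number of a finite non-abelian group of odd order -/
def Good (t : ℕ) : Prop :=
  ∃ (G : Type) (_ : Group G) (_ : Finite G), Odd (Nat.card G) ∧ (∃ a b : G, a * b ≠ b * a) ∧
    Nat.card (ConjClasses G) = t

/-- odd norms from `ℤ[ω]` -/
def Nm (m : ℕ) : Prop := Odd m ∧ ∃ u v : ℕ, m = u ^ 2 + 3 * v ^ 2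

theorem Nm.pos {m : ℕ} (h : Nm m) : 0 < m := h.1.pos

theorem nm_one : Nm 1 := ⟨odd_one, 1, 0, by norm_num⟩

/-- the module of a decoration: `k3 = false`: order `m`, one fixed point; `k3 = true`: order `3m`,
three fixed points -/
theorem exists_mod (k3 : Bool) (m : ℕ) (hm : Nm m) (h1 : k3 = false → m % 3 = 1) :
    ∃ (M : Type) (_ : AddCommGroup M) (_ : Finite M) (τ : Tw3 M),
      Nat.card M = (if k3 then 3 else 1) * m ∧ Nat.card τ.Fix = (if k3 then 3 else 1) := by
  obtain ⟨hodd, u, v, huv⟩ := hm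
  have hz : ((u : ℤ) ^ 2 + 3 * (v : ℤ) ^ 2) = ((m : ℕ) : ℤ) := by rw [huv]; push_cast; rfl
  have hm0 : 0 < m := hodd.pos
  cases k3 with
  | false =>
    have h2 := h1 rfl
    obtain ⟨M, i1, i2, τ, h3, h4⟩ := exists_mod_one u v (by rw [hz]; omega)
    refine ⟨M, i1, i2, τ, ?_, ?_⟩
    · rw [h3, hz]; simp
    · simpa using h4
  | true =>
    obtain ⟨M, i1, i2, τ, h3, h4⟩ := exists_mod_three u v (by rw [hz]; exact_mod_cast hm0.ne')
    refine ⟨M, i1, i2, τ, ?_, ?_⟩
    · rw [h3, hz]; simp
    · simpa using h4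

open Classical in
/-- **Decorated groups, commuting pairs form.**  `b : V × V → W` biadditive, decorations
`(f j, m j)`; `k3 j = true` for a decoration of type three (any odd norm `m j`), `k3 j = false`
for the ordinary type (`m j ≡ 1 mod 3`). -/
theorem exists_group {V W J : Type} [AddCommGroup V] [AddCommGroup W] [Fintype V] [Finite W]
    [Fintype J] (hV : Odd (Nat.card V)) (hW : Odd (Nat.card W)) (b : V → V → W)
    (hx : ∀ x x' y, b (x + x') y = b x y + b x' y)
    (hy : ∀ x y y', b x (y + y') = b x y + b x y')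
    (f : J → V →+ ZMod 3) (k3 : J → Bool) (m : J → ℕ) (hm : ∀ j, Nm (m j))
    (h1 : ∀ j, k3 j = false → m j % 3 = 1) :
    ∃ (G : Type) (_ : Group G) (_ : Finite G), Odd (Nat.card G) ∧
      (((∃ x y, b x y ≠ b y x) ∨ (∃ j, f j ≠ 0 ∧ 1 < m j)) → ∃ x y : G, x * y ≠ y * x) ∧
      Nat.card V * Nat.card (ConjClasses G) =
        Nat.card W * (3 ^ (Finset.univ.filter (fun j => k3 j = true)).card * ∑ q : V × V,
          if b q.1 q.2 = b q.2 q.1 then
            ∏ j, (if f j q.1 = 0 ∧ f j q.2 = 0 then m j else 1)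
          else 0) := by
  choose M i1 i2 τ h3 h4 using fun j => exists_mod (k3 j) (m j) (hm j) (h1 j)
  let _ := dgGroup τ f b hx hy
  have hfin : Finite (DG J M V W) := inferInstance
  refine ⟨DG J M V W, inferInstance, hfin, ?_, ?_, ?_⟩
  · rw [card_DG]
    refine Odd.mul ?_ (Odd.mul hV hW)
    refine Finset.prod_induction _ Odd (fun a b ha hb => ha.mul hb) odd_one fun j _ => ?_
    rw [h3]
    refine Odd.mul ?_ (hm j).1
    split_ifs <;> decide
  · have hmul : ∀ g h : DG J M V W, g * h = ⟨fun j => g.a j + (τ j).s (f j g.v) (h.a j),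
      g.v + h.v, g.w + h.w + b g.v h.v⟩ := fun _ _ => rfl
    rintro (⟨x, y, hxy⟩ | ⟨j, hf, hmj⟩)
    · refine ⟨⟨fun _ => 0, x, 0⟩, ⟨fun _ => 0, y, 0⟩, fun e => ?_⟩
      rw [hmul, hmul] at e
      injection e with e1 e2 e3
      exact hxy (add_left_cancel e3)
    · -- an element of `M j` which is not fixed
      have hv : ∃ v, f j v ≠ 0 := by
        by_contra hcon
        push Not at hcon
        exact hf (AddMonoidHom.ext hcon)
      obtain ⟨v, hv⟩ := hv
      have hnf : ∃ a : M j, (τ j).s 1 a ≠ a := by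
        by_contra hcon
        push Not at hcon
        have e : (τ j).Fix ≃ M j := Equiv.subtypeUnivEquiv hcon
        have e2 := Nat.card_congr e
        rw [h3, h4] at e2
        have h5 : 0 < (if k3 j then 3 else 1) := by split_ifs <;> norm_num
        have h6 : (if k3 j then 3 else 1) * 1 < (if k3 j then 3 else 1) * m j :=
          Nat.mul_lt_mul_of_pos_left hmj h5
        omega
      obtain ⟨a, ha⟩ := hnf
      refine ⟨⟨Pi.single j a, 0, 0⟩, ⟨fun _ => 0, v, 0⟩, fun e => ?_⟩
      rw [hmul, hmul] at e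
      injection e with e1 e2 e3
      have e4 : Pi.single j a j + (τ j).s (f j 0) 0 = 0 + (τ j).s (f j v) (Pi.single j a j) :=
        congrFun e1 j
      rw [(τ j).s_zero, add_zero, zero_add, Pi.single_eq_same] at e4
      exact ha (((τ j).fix_iff hv a).1 e4.symm)
  · rw [class_number τ f b hx hy]
    congr 1
    rw [Finset.mul_sum]
    refine Finset.sum_congr rfl fun q _ => ?_
    split_ifs with hq
    · have h5 : ∏ j : J, (if k3 j = true then (3 : ℕ) else 1) =
          3 ^ (Finset.univ.filter (fun j => k3 j = true)).card := by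
        rw [Finset.prod_ite]; simp
      rw [← h5, ← Finset.prod_mul_distrib]
      refine Finset.prod_congr rfl fun j _ => ?_
      rw [h3, h4]
      by_cases hj : f j q.1 = 0 ∧ f j q.2 = 0
      · rw [if_pos hj, if_pos hj]
      · rw [if_neg hj, if_neg hj, mul_one]
    · rw [mul_zero]

/-! ### the form with characters -/

/-- twice the real part of `ζ^x` -/
def cc (x : ZMod 3) : ℤ := if x = 0 then 2 else -1

/-- a nonzero additive map to `Z/3` vanishes on a third of its source -/
theorem ker_count {L : Type} [AddCommGroup L] [Fintype L] (g : L →+ ZMod 3) (hg : g ≠ 0) :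
    3 * (Finset.univ.filter (fun a => g a = 0)).card = Fintype.card L := by
  classical
  have h2 : g.ker.index = 3 := by
    have hr : g.ker.index = Nat.card g.range := AddSubgroup.index_ker g
    have h3 : Nat.card g.range ∣ 3 := by
      have := AddSubgroup.card_addSubgroup_dvd_card g.range
      simpa using this
    have h4 : Nat.card g.range ≠ 1 := by
      intro h
      apply hg
      have := (AddSubgroup.card_eq_one (H := g.range)).1 h
      exact (AddMonoidHom.range_eq_bot_iff).1 this
    rw [hr]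
    rcases (Nat.dvd_prime Nat.prime_three).1 h3 with h | h
    · exact absurd h h4
    · exact h
  have h3 := AddSubgroup.card_mul_index g.ker
  rw [h2, Nat.card_eq_fintype_card (α := L)] at h3
  have h4 : Nat.card g.ker = (Finset.univ.filter (fun a => g a = 0)).card := by
    rw [← Fintype.card_subtype, ← Nat.card_eq_fintype_card]; rfl
  rw [← h4, mul_comm]; exact h3

theorem sum_cc {L : Type} [AddCommGroup L] [Fintype L] (g : L →+ ZMod 3) :
    ∑ a, cc (g a) = if g = 0 then 2 * (Fintype.card L : ℤ) else 0 := by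
  classical
  split_ifs with h
  · subst h
    simp [cc]; ring
  · have h1 := ker_count g h
    have h2 : ∀ a, cc (g a) = 3 * (if g a = 0 then 1 else 0) - 1 := by
      intro a; unfold cc; split_ifs <;> norm_num
    rw [Finset.sum_congr rfl fun a _ => h2 a, Finset.sum_sub_distrib, ← Finset.mul_sum,
      Finset.sum_boole, Finset.sum_const, Finset.card_univ]
    have h3 : (3 : ℤ) * ((Finset.univ.filter (fun a => g a = 0)).card : ℤ) = Fintype.card L := by
      exact_mod_cast h1
    rw [h3]; simp

open Classical in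
/-- **Decorated groups from a space `L` of alternating forms on `V`.** -/
theorem exists_group_forms {V L J : Type} [AddCommGroup V] [AddCommGroup L] [Fintype V]
    [Fintype L] [Module (ZMod 3) L] [Fintype J] (hV : Odd (Nat.card V))
    (ω : L → V → V → ZMod 3)
    (hL : ∀ a a' x y, ω (a + a') x y = ω a x y + ω a' x y)
    (hx : ∀ a x x' y, ω a (x + x') y = ω a x y + ω a x' y)
    (halt : ∀ a x y, ω a x y = - ω a y x)
    (f : J → V →+ ZMod 3) (k3 : J → Bool) (m : J → ℕ) (hm : ∀ j, Nm (m j))
    (h1 : ∀ j, k3 j = false → m j % 3 = 1) :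
    ∃ (G : Type) (_ : Group G) (_ : Finite G), Odd (Nat.card G) ∧
      (((∃ a x y, ω a x y ≠ 0) ∨ (∃ j, f j ≠ 0 ∧ 1 < m j)) → ∃ x y : G, x * y ≠ y * x) ∧
      2 * (Nat.card V : ℤ) * (Nat.card (ConjClasses G) : ℤ) =
        3 ^ (Finset.univ.filter (fun j => k3 j = true)).card * ∑ a : L, ∑ q : V × V,
          cc (ω a q.1 q.2) * ∏ j, (if f j q.1 = 0 ∧ f j q.2 = 0 then (m j : ℤ) else 1) := by
  have hy : ∀ a x y y', ω a x (y + y') = ω a x y + ω a x y' := by
    intro a x y y'
    rw [halt, hx, halt a y x, halt a y' x]; ring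
  let b : V → V → (L →+ ZMod 3) := fun x y =>
    AddMonoidHom.mk' (fun a => - ω a x y) (fun a a' => by rw [hL]; ring)
  have hb : ∀ x y a, b x y a = - ω a x y := fun _ _ _ => rfl
  have hfinL : Finite (L →+ ZMod 3) :=
    Finite.of_injective (fun g : L →+ ZMod 3 => (g : L → ZMod 3)) DFunLike.coe_injective
  -- cardinality of the dual
  have hcardL : Nat.card (L →+ ZMod 3) = Nat.card L := by
    have e : (L →+ ZMod 3) ≃ Module.Dual (ZMod 3) L :=
      { toFun := fun g => AddMonoidHom.toZModLinearMap 3 g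
        invFun := fun g => g.toAddMonoidHom
        left_inv := fun _ => rfl
        right_inv := fun _ => rfl }
    rw [Nat.card_congr e]
    have : Module.Finite (ZMod 3) L := Module.Finite.of_finite
    have e2 := (Module.finBasis (ZMod 3) L).toDualEquiv
    exact (Nat.card_congr e2.toEquiv).symm
  have hLodd : Odd (Nat.card L) := by
    have : Module.Finite (ZMod 3) L := Module.Finite.of_finite
    have h2 := Module.natCard_eq_pow_finrank (K := ZMod 3) (V := L)
    rw [h2, Nat.card_zmod]
    exact Odd.pow (by decide)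
  obtain ⟨G, g1, g2, g3, g4, g5⟩ := exists_group hV (by rw [hcardL]; exact hLodd) b
    (fun x x' y => by ext a; rw [AddMonoidHom.add_apply, hb, hb, hb, hx]; ring)
    (fun x y y' => by ext a; rw [AddMonoidHom.add_apply, hb, hb, hb, hy]; ring)
    f k3 m hm h1
  have hbb : ∀ x y, b x y = b y x ↔
      (AddMonoidHom.mk' (fun a => ω a x y) (fun a a' => hL a a' x y) : L →+ ZMod 3) = 0 := by
    intro x y
    have h3 : ∀ c : ZMod 3, (-c = c) ↔ c = 0 := by decide
    constructor
    · intro h
      ext a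
      have h4 := DFunLike.congr_fun h a
      rw [hb, hb, halt a y x, neg_neg] at h4
      exact (h3 _).1 h4
    · intro h
      ext a
      have h4 : ω a x y = 0 := DFunLike.congr_fun h a
      rw [hb, hb, halt a y x, neg_neg, h4, neg_zero]
  refine ⟨G, g1, g2, g3, ?_, ?_⟩
  · rintro (⟨a, x, y, h⟩ | h)
    · refine g4 (Or.inl ⟨x, y, fun h2 => h ?_⟩)
      exact DFunLike.congr_fun ((hbb x y).1 h2) a
    · exact g4 (Or.inr h)
  · have hLp : (0 : ℤ) < Nat.card L := by exact_mod_cast (Nat.card_pos : 0 < Nat.card L)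
    have h6 : (Nat.card V : ℤ) * (Nat.card (ConjClasses G) : ℤ) =
        (Nat.card L : ℤ) * (3 ^ (Finset.univ.filter (fun j => k3 j = true)).card * ∑ q : V × V,
          if b q.1 q.2 = b q.2 q.1 then
            ∏ j, (if f j q.1 = 0 ∧ f j q.2 = 0 then (m j : ℤ) else 1)
          else 0) := by
      rw [hcardL] at g5
      have := congrArg (Nat.cast : ℕ → ℤ) g5
      push_cast at this
      exact this
    have h7 : ∑ a : L, ∑ q : V × V,
          cc (ω a q.1 q.2) * ∏ j, (if f j q.1 = 0 ∧ f j q.2 = 0 then (m j : ℤ) else 1) =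
        2 * (Nat.card L : ℤ) * ∑ q : V × V,
          if b q.1 q.2 = b q.2 q.1 then
            ∏ j, (if f j q.1 = 0 ∧ f j q.2 = 0 then (m j : ℤ) else 1)
          else 0 := by
      rw [Finset.sum_comm, Finset.mul_sum]
      refine Finset.sum_congr rfl fun q _ => ?_
      rw [← Finset.sum_mul]
      have h8 := sum_cc (AddMonoidHom.mk' (fun a => ω a q.1 q.2) (fun a a' => hL a a' q.1 q.2))
      have h9 : ∑ a : L, cc (ω a q.1 q.2) = ∑ a : L, cc ((AddMonoidHom.mk' (fun a => ω a q.1 q.2)
        (fun a a' => hL a a' q.1 q.2) : L →+ ZMod 3) a) := rfl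
      rw [h9, h8]
      by_cases hq : b q.1 q.2 = b q.2 q.1
      · rw [if_pos hq, if_pos ((hbb _ _).1 hq), Nat.card_eq_fintype_card]
      · rw [if_neg hq, if_neg (fun h => hq ((hbb _ _).2 h)), zero_mul, mul_zero]
    rw [h7, mul_assoc 2, h6]; ring

end Pool.Agent.Lib.MP_cfac74_al.Dec
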