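import Mathlib

/-!
# MP_cfac74_al : modules `ℤ[ω]/γ` with the automorphism of order three
-/

set_option autoImplicit false

namespace Pool.Agent.Lib.MP_cfac74_al.Dec

/-- an action of `Z/3` on an abelian group -/
structure Tw3 (M : Type) [AddCommGroup M] where
  s : ZMod 3 → M → M
  add : ∀ p a b, s p (a + b) = s p a + s p b
  zero : ∀ a, s 0 a = a
  mul : ∀ p q a, s (p + q) a = s p (s q a)

/-- the fixed points -/
def Tw3.Fix {M : Type} [AddCommGroup M] (τ : Tw3 M) : Type := {a : M // τ.s 1 a = a}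

/-- an action from an automorphism of order three -/
def Tw3.mk' {M : Type} [AddCommGroup M] (σ : M → M) (hadd : ∀ a b, σ (a + b) = σ a + σ b)
    (h3 : ∀ a, σ (σ (σ a)) = a) : Tw3 M where
  s p a := σ^[p.val] a
  add p := by
    have : ∀ n : ℕ, ∀ a b, σ^[n] (a + b) = σ^[n] a + σ^[n] b := by
      intro n
      induction n with
      | zero => intro a b; rfl
      | succ n ih => intro a b; rw [Function.iterate_succ_apply, Function.iterate_succ_apply,
          Function.iterate_succ_apply, hadd, ih]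
    exact this _
  zero _ := rfl
  mul p q a := by
    have hp : p = 0 ∨ p = 1 ∨ p = 2 := by revert p; decide
    have hq : q = 0 ∨ q = 1 ∨ q = 2 := by revert q; decide
    rcases hp with rfl | rfl | rfl <;> rcases hq with rfl | rfl | rfl
    · rfl
    · rfl
    · rfl
    · rfl
    · rfl
    · exact (h3 a).symm
    · rfl
    · exact (h3 a).symm
    · change σ a = σ (σ (σ (σ a)))
      rw [h3]

/-- multiplication by `p + q ω` on `ℤ × ℤ` -/
def emul (p q : ℤ) : (ℤ × ℤ) →ₗ[ℤ] (ℤ × ℤ) where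
  toFun x := (p * x.1 - q * x.2, q * x.1 + (p - q) * x.2)
  map_add' x y := by ext <;> simp <;> ring
  map_smul' c x := by ext <;> simp <;> ring

theorem emul_apply (p q : ℤ) (x : ℤ × ℤ) :
    emul p q x = (p * x.1 - q * x.2, q * x.1 + (p - q) * x.2) := rfl

theorem emul_comm (p q p' q' : ℤ) (x : ℤ × ℤ) :
    emul p q (emul p' q' x) = emul p' q' (emul p q x) := by
  simp only [emul_apply]; ext <;> simp <;> ring

/-- the norm -/
def nrm (p q : ℤ) : ℤ := p ^ 2 - p * q + q ^ 2

theorem emul_conj (p q : ℤ) (x : ℤ × ℤ) :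
    emul (p - q) (-q) (emul p q x) = (nrm p q) • x := by
  simp only [emul_apply, nrm]; ext <;> simp <;> ring

theorem emul_inj (p q : ℤ) (h : nrm p q ≠ 0) : Function.Injective (emul p q) := by
  intro x y hxy
  have h1 := congrArg (emul (p - q) (-q)) hxy
  rw [emul_conj, emul_conj] at h1
  exact smul_right_injective _ h h1

theorem det_emul (p q : ℤ) : LinearMap.det (emul p q) = nrm p q := by
  rw [← LinearMap.det_toMatrix (Module.Basis.finTwoProd ℤ), Matrix.det_fin_two]
  simp [LinearMap.toMatrix_apply, emul_apply, nrm]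
  ring

/-- the module `ℤ[ω]/(p+qω)` -/
abbrev EM (p q : ℤ) : Type := (ℤ × ℤ) ⧸ LinearMap.range (emul p q)

theorem card_EM (p q : ℤ) (h : nrm p q ≠ 0) : Nat.card (EM p q) = (nrm p q).natAbs := by
  have e := LinearEquiv.ofInjective (emul p q) (emul_inj p q h)
  have h1 := Submodule.natAbs_det_equiv (LinearMap.range (emul p q))
    (LinearEquiv.ofInjective (emul p q) (emul_inj p q h))
  have h2 : (LinearMap.range (emul p q)).subtype ∘ₗ
      AddMonoidHom.toIntLinearMap
        ((LinearEquiv.ofInjective (emul p q) (emul_inj p q h)) :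
          (ℤ × ℤ) →+ LinearMap.range (emul p q)) = emul p q := by
    apply LinearMap.ext; intro x; rfl
  rw [h2, det_emul] at h1
  rw [h1]

theorem finite_EM (p q : ℤ) (h : nrm p q ≠ 0) : Finite (EM p q) := by
  apply Nat.finite_of_card_ne_zero
  rw [card_EM p q h]
  exact Int.natAbs_ne_zero.2 h

/-- multiplication by `ω` on `ℤ[ω]/(p+qω)` -/
def emod (p q : ℤ) : EM p q →ₗ[ℤ] EM p q :=
  Submodule.mapQ _ _ (emul 0 1) (by
    rintro _ ⟨x, rfl⟩
    exact ⟨emul 0 1 x, by rw [emul_comm]⟩)

theorem emod_mk (p q : ℤ) (x : ℤ × ℤ) :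
    emod p q (Submodule.Quotient.mk x) = Submodule.Quotient.mk (emul 0 1 x) := rfl

theorem emod_sum (p q : ℤ) (a : EM p q) : a + emod p q a + emod p q (emod p q a) = 0 := by
  obtain ⟨x, rfl⟩ := Submodule.Quotient.mk_surjective _ a
  rw [emod_mk, emod_mk, ← Submodule.Quotient.mk_add, ← Submodule.Quotient.mk_add]
  have : x + emul 0 1 x + emul 0 1 (emul 0 1 x) = 0 := by
    simp only [emul_apply]; ext <;> simp
  rw [this, Submodule.Quotient.mk_zero]

theorem emod_three (p q : ℤ) (a : EM p q) : emod p q (emod p q (emod p q a)) = a := by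
  obtain ⟨x, rfl⟩ := Submodule.Quotient.mk_surjective _ a
  rw [emod_mk, emod_mk, emod_mk]
  have : emul 0 1 (emul 0 1 (emul 0 1 x)) = x := by
    simp only [emul_apply]; ext <;> simp
  rw [this]

/-- the action of `Z/3` on `ℤ[ω]/(p+qω)` -/
def etw (p q : ℤ) : Tw3 (EM p q) :=
  Tw3.mk' (emod p q) (fun a b => map_add _ a b) (emod_three p q)

theorem etw_one (p q : ℤ) (a : EM p q) : (etw p q).s 1 a = emod p q a := rfl

theorem card_fix_one (p q : ℤ) (h0 : nrm p q ≠ 0) (h : ¬ (3 : ℤ) ∣ nrm p q) :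
    Nat.card (etw p q).Fix = 1 := by
  rw [Nat.card_eq_one_iff_unique]
  have key : ∀ a : EM p q, emod p q a = a → a = 0 := by
    intro a ha
    have h1 := emod_sum p q a
    rw [ha, ha] at h1
    have h3 : (3 : ℤ) • a = 0 := by
      rw [← h1]; module
    have hN : (nrm p q) • a = 0 := by
      have := finite_EM p q h0
      have hc := card_EM p q h0
      have h4 : Nat.card (EM p q) • a = 0 := card_nsmul_eq_zero'
      rw [hc] at h4
      rcases Int.natAbs_eq (nrm p q) with h5 | h5
      · rw [h5, natCast_zsmul]; exact h4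
      · rw [h5, neg_smul, natCast_zsmul, h4, neg_zero]
    have hcop : IsCoprime (3 : ℤ) (nrm p q) := by
      rw [Int.isCoprime_iff_gcd_eq_one]
      have : Nat.Coprime 3 (nrm p q).natAbs := by
        rw [Nat.Prime.coprime_iff_not_dvd Nat.prime_three]
        intro hd
        exact h (Int.natCast_dvd.2 hd)
      simpa [Int.gcd] using this
    obtain ⟨x, y, hxy⟩ := hcop
    calc a = (1 : ℤ) • a := (one_smul _ _).symm
      _ = (x * 3 + y * nrm p q) • a := by rw [hxy]
      _ = x • ((3 : ℤ) • a) + y • ((nrm p q) • a) := by rw [add_smul, mul_smul, mul_smul]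
      _ = 0 := by rw [h3, hN, smul_zero, smul_zero, add_zero]
  refine ⟨⟨fun a b => ?_⟩, ⟨⟨0, map_zero (emod p q)⟩⟩⟩
  apply Subtype.ext
  rw [key a.1 a.2, key b.1 b.2]

theorem emul_pi (p q : ℤ) (x : ℤ × ℤ) :
    emul (p + q) (2 * q - p) x = emul 1 (-1) (emul p q x) := by
  simp only [emul_apply]; ext <;> simp <;> ring

theorem nrm_pi (p q : ℤ) : nrm (p + q) (2 * q - p) = 3 * nrm p q := by
  unfold nrm; ring

theorem card_fix_three (p q : ℤ) (h0 : nrm p q ≠ 0) :
    Nat.card (etw (p + q) (2 * q - p)).Fix = 3 := by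
  set f : (ℤ × ℤ) →ₗ[ℤ] EM (p + q) (2 * q - p) :=
    (LinearMap.range (emul (p + q) (2 * q - p))).mkQ ∘ₗ emul p q with hf
  have hpi : Function.Injective (emul 1 (-1)) := emul_inj 1 (-1) (by decide)
  have hfa : ∀ x, f x = Submodule.Quotient.mk (emul p q x) := fun _ => rfl
  have hker : LinearMap.ker f = LinearMap.range (emul 1 (-1)) := by
    ext y
    rw [LinearMap.mem_ker, hfa, Submodule.Quotient.mk_eq_zero, LinearMap.mem_range,
      LinearMap.mem_range]
    constructor
    · rintro ⟨x, hx⟩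
      rw [emul_pi, emul_comm] at hx
      exact ⟨x, emul_inj p q h0 hx⟩
    · rintro ⟨x, rfl⟩
      exact ⟨x, by rw [emul_pi, emul_comm]⟩
  have hran : ∀ a : EM (p + q) (2 * q - p), a ∈ LinearMap.range f ↔
      (etw (p + q) (2 * q - p)).s 1 a = a := by
    intro a
    rw [etw_one, LinearMap.mem_range]
    obtain ⟨x, rfl⟩ := Submodule.Quotient.mk_surjective _ a
    rw [emod_mk]
    constructor
    · rintro ⟨y, hy⟩
      rw [← hy, hfa] 
      have h1 : Submodule.Quotient.mk (p := LinearMap.range (emul (p + q) (2 * q - p)))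
          (emul 0 1 x) = emod (p + q) (2 * q - p) (Submodule.Quotient.mk x) := rfl
      rw [h1, ← hy, hfa, emod_mk, Submodule.Quotient.eq]
      refine ⟨-y, ?_⟩
      rw [emul_pi]
      simp only [emul_apply]; ext <;> simp <;> ring
    · intro h
      rw [Submodule.Quotient.eq] at h
      obtain ⟨y, hy⟩ := h
      rw [emul_pi] at hy
      refine ⟨-y, ?_⟩
      rw [hfa]
      congr 1
      apply hpi
      have h2 : emul 1 (-1) x = -(emul 0 1 x - x) := by
        simp only [emul_apply]; ext <;> simp <;> ring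
      rw [h2, ← hy, map_neg, map_neg]
  have e1 : (etw (p + q) (2 * q - p)).Fix ≃ LinearMap.range f :=
    Equiv.subtypeEquivRight fun a => (hran a).symm
  rw [Nat.card_congr e1, ← Nat.card_congr (LinearMap.quotKerEquivRange f).toEquiv, hker]
  exact card_EM 1 (-1) (by decide)

/-- modules whose order is a norm prime to three -/
theorem exists_mod_one (u v : ℤ) (h : (u ^ 2 + 3 * v ^ 2) % 3 = 1) :
    ∃ (M : Type) (_ : AddCommGroup M) (_ : Finite M) (τ : Tw3 M),
      Nat.card M = (u ^ 2 + 3 * v ^ 2).natAbs ∧ Nat.card τ.Fix = 1 := by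
  have e : nrm (u + v) (2 * v) = u ^ 2 + 3 * v ^ 2 := by unfold nrm; ring
  have h0 : nrm (u + v) (2 * v) ≠ 0 := by
    rw [e]; intro h1; rw [h1] at h; norm_num at h
  refine ⟨EM (u + v) (2 * v), inferInstance, finite_EM _ _ h0, etw _ _, ?_, ?_⟩
  · rw [card_EM _ _ h0, e]
  · apply card_fix_one _ _ h0
    rw [e]; omega

/-- modules whose order is three times a norm -/
theorem exists_mod_three (u v : ℤ) (h : u ^ 2 + 3 * v ^ 2 ≠ 0) :
    ∃ (M : Type) (_ : AddCommGroup M) (_ : Finite M) (τ : Tw3 M),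
      Nat.card M = 3 * (u ^ 2 + 3 * v ^ 2).natAbs ∧ Nat.card τ.Fix = 3 := by
  have e : nrm (u + v) (2 * v) = u ^ 2 + 3 * v ^ 2 := by unfold nrm; ring
  have h0 : nrm (u + v) (2 * v) ≠ 0 := by rw [e]; exact h
  have h1 : nrm ((u + v) + 2 * v) (2 * (2 * v) - (u + v)) ≠ 0 := by
    rw [nrm_pi]; exact mul_ne_zero (by norm_num) h0
  refine ⟨EM ((u + v) + 2 * v) (2 * (2 * v) - (u + v)), inferInstance, finite_EM _ _ h1,
    etw _ _, ?_, card_fix_three _ _ h0⟩
  rw [card_EM _ _ h1, nrm_pi, e, Int.natAbs_mul]; rfl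

end Pool.Agent.Lib.MP_cfac74_al.Dec
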